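import Pool.Agent.Helper34.FF.Goals1

/-!
# The boundary of a bond is a cycle (packet StmtEnum of MP_7cb822_co)
-/

namespace Pool.Agent.Helper23.FF

open Finset Pool.Agent.Helper34.FF
open scoped symmDiff Classical

/-- The edge set of a closed trail is even. -/
theorem evenSet_cycle {V : Type} {H : SimpleGraph V} {u : V} (p : H.Walk u u) (hp : p.IsCycle) :
    EvenSet (p.edges.toFinset) := by
  intro v
  have h := (SimpleGraph.Walk.IsTrail.even_countP_edges_iff (p := p) hp.isTrail v).2
    (fun h => absurd rfl h)
  have h2 : (p.edges.toFinset.filter fun e => v ∈ e).card = p.edges.countP fun e => v ∈ e := by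
    rw [List.countP_eq_length_filter,
      ← List.toFinset_card_of_nodup (hp.isTrail.edges_nodup.filter _), List.toFinset_filter]
    congr 1
    ext e
    simp
  rw [h2]
  exact h

/-- A graph with an edge and all degrees even contains a cycle. -/
theorem exists_cycle {V : Type} [Fintype V] (Z : Finset (Sym2 V)) (hZ : Z.Nonempty)
    (hev : EvenSet Z) (hd : ∀ e ∈ Z, ¬ e.IsDiag) :
    ∃ (u : V) (p : (SimpleGraph.fromEdgeSet (Z : Set (Sym2 V))).Walk u u), p.IsCycle := by
  set H := SimpleGraph.fromEdgeSet (Z : Set (Sym2 V)) with hH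
  have hadj : ∀ x y, H.Adj x y ↔ s(x, y) ∈ Z := by
    intro x y
    rw [hH, SimpleGraph.fromEdgeSet_adj]
    constructor
    · intro h
      exact h.1
    · intro h
      refine ⟨h, ?_⟩
      intro hxy
      exact hd _ h (by rw [hxy]; exact Sym2.mk_isDiag_iff.2 rfl)
  by_contra hcon
  push Not at hcon
  have hac : H.IsAcyclic := fun v c hc => hcon v c hc
  obtain ⟨e, he⟩ := hZ
  induction e using Sym2.ind with
  | _ x y =>
  have : Nonempty V := ⟨x⟩
  obtain ⟨u, v, p, hp, hmax⟩ := SimpleGraph.Walk.exists_isPath_forall_isPath_length_le_length H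
  have hxy : H.Adj x y := (hadj x y).2 he
  have hlen : 1 ≤ p.length := by
    have h := hmax x y (SimpleGraph.Walk.cons hxy SimpleGraph.Walk.nil) (by
      simp [SimpleGraph.Walk.cons_isPath_iff, hxy.ne])
    simpa using h
  have hnil : ¬ p.Nil := by
    intro h
    rw [← SimpleGraph.Walk.length_eq_zero_iff] at h
    omega
  have hpen : H.Adj p.penultimate v := p.adj_penultimate hnil
  have hmem : s(p.penultimate, v) ∈ Z := (hadj _ _).1 hpen
  have hmem2 : s(p.penultimate, v) ∈ Z.filter fun e => v ∈ e := by
    rw [mem_filter]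
    exact ⟨hmem, Sym2.mem_mk_right _ _⟩
  have h2 : 1 < (Z.filter fun e => v ∈ e).card := by
    have h1 : 0 < (Z.filter fun e => v ∈ e).card := Finset.card_pos.2 ⟨_, hmem2⟩
    obtain ⟨k, hk⟩ := hev v
    omega
  obtain ⟨e', he', hne⟩ := Finset.exists_mem_ne h2 s(p.penultimate, v)
  rw [mem_filter] at he'
  obtain ⟨w, hw⟩ := Sym2.mem_iff_exists.1 he'.2
  have hvw : H.Adj v w := by
    rw [hadj, ← hw]
    exact he'.1
  by_cases hsup : w ∈ p.support
  · have h := hac.eq_penultimate_of_adj_end hp hvw hsup
    apply hne
    rw [hw, h, Sym2.eq_swap]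
  · have h := hmax _ _ (p.concat hvw) (hp.concat hsup hvw)
    rw [SimpleGraph.Walk.length_concat] at h
    omega

theorem pf_StmtEnum (h1 : StmtAlg) (h2 : StmtBond) : StmtEnum := by
  intro V F _ _ T hT S hS
  obtain ⟨hne, hmin⟩ := (h2 V F T hT).2 S hS
  set Z := T.bdry S with hZ
  have hZG : ∀ e ∈ Z, e ∈ T.G.edgeSet := by
    intro e he
    rw [hZ, Tri.bdry, mem_filter] at he
    exact he.2.1
  have hev : EvenSet Z := (h1 V F T).2.2.1 S
  obtain ⟨u, p, hp⟩ := exists_cycle Z hne hev (fun e he => T.G.not_isDiag_of_mem_edgeSet (hZG e he))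
  have hsub : p.edges.toFinset ⊆ Z := by
    intro e he
    rw [List.mem_toFinset] at he
    have h := p.edges_subset_edgeSet he
    rw [SimpleGraph.edgeSet_fromEdgeSet] at h
    exact h.1
  have hEq : p.edges.toFinset = Z := by
    rcases hmin _ hsub (evenSet_cycle p hp) with h | h
    · exfalso
      have h3 := hp.three_le_length
      rw [← SimpleGraph.Walk.length_edges] at h3
      rw [List.toFinset_eq_empty_iff] at h
      rw [h] at h3
      simp at h3
    · exact h
  have hlen : T.len S = p.length := by
    have h3 := congrArg Finset.card hEq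
    rw [List.toFinset_card_of_nodup hp.isTrail.edges_nodup,
      SimpleGraph.Walk.length_edges] at h3
    exact h3.symm
  set l := p.length with hl
  have hl3 : 3 ≤ l := hp.three_le_length
  have hl0 : (0 : ℤ) < l := by omega
  -- values
  have hval : ∀ i : ℤ, ((i % l).toNat : ℤ) = i % l := fun i =>
    Int.toNat_of_nonneg (Int.emod_nonneg _ (by omega))
  have hlt : ∀ i : ℤ, (i % l).toNat < l := by
    intro i
    have h1 := hval i
    have h2 := Int.emod_lt_of_pos i hl0
    omega
  -- successor
  have hsucc : ∀ i : ℤ, p.getVert (((i + 1) % l).toNat) = p.getVert ((i % l).toNat + 1) := by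
    intro i
    by_cases hi : (i % l).toNat + 1 = l
    · have h1 : (i + 1) % l = 0 := by
        have h2 := hval i
        have h3 : i % l = l - 1 := by omega
        rw [Int.add_emod, h3]
        have h4 : (1 : ℤ) % l = 1 := Int.emod_eq_of_lt (by omega) (by omega)
        rw [h4, sub_add_cancel, Int.emod_self]
      rw [h1, hi]
      simp [hl]
    · have h1 : (i + 1) % l = i % l + 1 := by
        have h2 := hval i
        have h3 := hlt i
        rw [Int.add_emod]
        have h4 : (1 : ℤ) % l = 1 := Int.emod_eq_of_lt (by omega) (by omega)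
        rw [h4]
        exact Int.emod_eq_of_lt (by omega) (by omega)
      have h5 : ((i + 1) % l).toNat = (i % l).toNat + 1 := by
        have h2 := hval i
        omega
      rw [h5]
  refine ⟨fun i => p.getVert ((i % l).toNat), ?_⟩
  rw [hlen]
  refine ⟨hl3, ?_, ?_, ?_, ?_⟩
  · intro i
    show p.getVert (((i + l) % l).toNat) = p.getVert ((i % l).toNat)
    rw [Int.add_emod_right]
  · intro i j hij
    have h := hp.getVert_injOn' (by
      show (i % l).toNat ≤ p.length - 1
      have := hlt i
      omega) (by
      show (j % l).toNat ≤ p.length - 1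
      have := hlt j
      omega) hij
    have h1 := hval i
    have h2 := hval j
    have h3 : i % l = j % l := by omega
    exact Int.ModEq.dvd (show (j : ℤ) ≡ i [ZMOD l] from h3.symm)
  · intro i
    show T.G.Adj (p.getVert ((i % l).toNat)) (p.getVert (((i + 1) % l).toNat))
    rw [hsucc]
    have h := p.adj_getVert_succ (i := (i % l).toNat) (hlt i)
    rw [SimpleGraph.fromEdgeSet_adj] at h
    have := hZG _ h.1
    rwa [SimpleGraph.mem_edgeSet] at this
  · intro e
    have hmem : e ∈ T.bdry S ↔ e ∈ p.edges := by
      rw [← List.mem_toFinset, hEq]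
    rw [hmem]
    constructor
    · intro he
      obtain ⟨i, hi, hie⟩ := List.mem_iff_getElem.1 he
      have hi' : i < l := by
        rw [hl, ← SimpleGraph.Walk.length_edges]
        exact hi
      refine ⟨i, ?_⟩
      show e = s(p.getVert (((i : ℤ) % l).toNat), p.getVert ((((i : ℤ) + 1) % l).toNat))
      rw [hsucc]
      have h1 : ((i : ℤ) % l).toNat = i := by
        rw [Int.emod_eq_of_lt (by omega) (by omega)]
        simp
      rw [h1, ← hie]
      exact p.getElem_edges hi
    · rintro ⟨i, rfl⟩
      show s(p.getVert ((i % l).toNat), p.getVert (((i + 1) % l).toNat)) ∈ p.edges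
      rw [hsucc]
      have h1 : (i % l).toNat < p.edges.length := by
        rw [SimpleGraph.Walk.length_edges]
        exact hlt i
      rw [← p.getElem_edges h1]
      exact List.getElem_mem h1

end Pool.Agent.Helper23.FF
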