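import Pool.Agent.Helper34.FF.G1
import Pool.Agent.Helper34.FF.Goals4

/-!
# The cut that runs along `S` and `P` (packet StmtFill of MP_7cb822_co)
-/

namespace Pool.Agent.Helper23.FF

open Finset Pool.Agent.Helper34.FF
open scoped symmDiff Classical

variable {V F : Type} [Fintype V] [Fintype F] (T : Tri V F)

set_option linter.unusedSectionVars false

/-- A boundary edge of a larger set is not an inner edge of a smaller one. -/
theorem not_inn {X Y : Finset F} (hXY : X ⊆ Y) {e : Sym2 V} (he : e ∈ T.bdry Y) :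
    e ∉ T.inn X := by
  intro h
  rw [Tri.bdry, mem_filter] at he
  rw [Tri.inn, mem_filter] at h
  have h1 := card_le_card (filter_subset_filter (fun f => T.on e f) hXY)
  have h2 := he.2.2
  have h3 := h.2.2
  omega

/-- Parity of the symmetric difference of two edge sets. -/
theorem even_symmDiff_of {Z Z' : Finset (Sym2 V)}
    (h : ∀ v, Odd ((Z.filter fun e => v ∈ e).card) ↔ Odd ((Z'.filter fun e => v ∈ e).card)) :
    EvenSet (Z ∆ Z') := by
  intro v
  have h1 : ((Z ∆ Z').filter fun e => v ∈ e) =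
      (Z.filter fun e => v ∈ e) ∆ (Z'.filter fun e => v ∈ e) := by
    ext e
    simp only [mem_filter, mem_symmDiff]
    tauto
  rw [h1]
  set A := Z.filter fun e => v ∈ e
  set B := Z'.filter fun e => v ∈ e
  have h2 : (A ∆ B).card + 2 * (A ∩ B).card = A.card + B.card := by
    have e1 : A ∆ B = (A \ B) ∪ (B \ A) := rfl
    rw [e1, card_union_of_disjoint (by
      rw [disjoint_left]
      intro x hx hx'
      rw [mem_sdiff] at hx hx'
      exact hx.2 hx'.1)]
    have e2 := card_sdiff_add_card_inter A B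
    have e3 := card_sdiff_add_card_inter B A
    rw [inter_comm B A] at e3
    omega
  have h3 := h v
  rw [← Nat.not_even_iff_odd, ← Nat.not_even_iff_odd, not_iff_not] at h3
  have h4 : Even (A.card + B.card) := by
    rw [Nat.even_add]
    exact h3
  rw [← h2] at h4
  exact (Nat.even_add.1 h4).2 (even_two_mul _)

theorem card_symmDiff_add {α : Type} [DecidableEq α] (A B : Finset α) :
    (A ∆ B).card + 2 * (A ∩ B).card = A.card + B.card := by
  have e1 : A ∆ B = (A \ B) ∪ (B \ A) := rfl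
  rw [e1, card_union_of_disjoint (by
    rw [disjoint_left]
    intro x hx hx'
    rw [mem_sdiff] at hx hx'
    exact hx.2 hx'.1)]
  have e2 := card_sdiff_add_card_inter A B
  have e3 := card_sdiff_add_card_inter B A
  rw [inter_comm B A] at e3
  omega

/-- Two arcs with the same ends bound a set of faces disjoint from a given connected set that is
outside of both. -/
theorem exists_between (hT : T.Sphere) {P S D : Finset F} {l : ℕ} {c c' : ℤ → V}
    (hP : T.Enum P l c) (hS : T.Enum S l c') (hPS : P ⊆ S) (hD : T.DC D) (hSD : Disjoint S D)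
    {i j : ℤ} (hij : i ≤ j) (hjl : j < i + l) (hi : c' i = c i) (hj : c' j = c j) :
    ∃ Z, T.bdry Z = arcE c' i j ∆ arcE c i j ∧ Disjoint Z D := by
  obtain ⟨-, -, -, -, -, hP1, hP2, -⟩ := pEnumFacts V F T hT P l c hP
  obtain ⟨-, -, -, -, -, hS1, hS2, -⟩ := pEnumFacts V F T hT S l c' hS
  have hPb := (hP1 i j hij hjl.le).2.1
  have hSb := (hS1 i j hij hjl.le).2.1
  obtain ⟨w1, inj1, we1⟩ := hP2 i j hij hjl
  obtain ⟨w2, inj2, we2⟩ := hS2 i j hij hjl
  have hev : EvenSet (arcE c' i j ∆ arcE c i j) := by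
    apply even_symmDiff_of
    intro v
    have o1 := ((pPar V T.G).2 _ _ _ _ w1 inj1).2 v
    have o2 := ((pPar V T.G).2 _ _ _ _ w2 inj2).2 v
    rw [we1] at o1
    rw [we2] at o2
    rw [o1, o2, hi, hj]
  have hedge : ∀ X : Finset F, ∀ e ∈ T.bdry X, e ∈ T.G.edgeSet := by
    intro X e he
    rw [Tri.bdry, mem_filter] at he
    exact he.2.1
  obtain ⟨Z₀, hZ₀⟩ := hT.span (arcE c' i j ∆ arcE c i j) (by
    intro e he
    rw [mem_symmDiff] at he
    rcases he with he | he
    · exact hedge S e (hSb he.1)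
    · exact hedge P e (hPb he.1)) hev
  have hcompl := (pAlg V F T).2.1
  have hSub : S ⊆ Dᶜ := by
    intro f hf
    rw [mem_compl]
    exact fun h => disjoint_left.1 hSD hf h
  have hDS : D ⊆ Sᶜ := by
    intro f hf
    rw [mem_compl]
    exact fun h => disjoint_left.1 hSD h hf
  have hDP : D ⊆ Pᶜ := hDS.trans (compl_subset_compl.2 hPS)
  have hno : ∀ e ∈ T.bdry Z₀, e ∉ T.inn D := by
    intro e he
    rw [hZ₀, mem_symmDiff] at he
    rcases he with he | he
    · apply not_inn T hDS
      rw [hcompl]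
      exact hSb he.1
    · apply not_inn T hDP
      rw [hcompl]
      exact hPb he.1
  rcases pNoCut V F T D Z₀ hD hno with h | h
  · refine ⟨Z₀ᶜ, ?_, ?_⟩
    · rw [hcompl, hZ₀]
    · rw [disjoint_left]
      intro f hf hfD
      rw [mem_compl] at hf
      exact hf (h hfD)
  · exact ⟨Z₀, hZ₀, h.symm⟩

theorem arcE_shift (c : ℤ → V) (p i j : ℤ) :
    arcE (fun t => c (t + p)) i j = arcE c (i + p) (j + p) := by
  ext e
  simp only [arcE, mem_image, mem_Ico]
  constructor
  · rintro ⟨t, ⟨h1, h2⟩, rfl⟩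
    refine ⟨t + p, ⟨by omega, by omega⟩, ?_⟩
    rw [show t + 1 + p = t + p + 1 by ring]
  · rintro ⟨t, ⟨h1, h2⟩, rfl⟩
    refine ⟨t - p, ⟨by omega, by omega⟩, ?_⟩
    rw [show t - p + p = t by ring, show t - p + 1 + p = t + 1 by ring]

theorem iso_shift (hT : T.Sphere) {X : Finset F} {l : ℕ} {c : ℤ → V} (h : T.Iso X l c) (p : ℕ) :
    T.Iso X l (fun t => c (t + p)) := by
  refine ⟨(pEnumFacts V F T hT X l c h.1).2.2.2.2.2.2.2.2.2 p, ?_⟩
  intro i j hij hjl
  have := h.2 (i + p) (j + p) (by omega) (by omega)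
  rw [show j + p - (i + p) = j - i by omega] at this
  push_cast at this ⊢
  exact this

theorem arcE_union (c : ℤ → V) {i j k : ℤ} (hij : i ≤ j) (hjk : j ≤ k) :
    arcE c i j ∪ arcE c j k = arcE c i k := by
  rw [arcE, arcE, arcE, ← image_union]
  congr 1
  ext t
  simp only [mem_union, mem_Ico]
  omega

theorem arcE_mono (c : ℤ → V) {i j k : ℤ} (hjk : j ≤ k) : arcE c i j ⊆ arcE c i k := by
  rw [arcE, arcE]
  apply image_subset_image
  intro t ht
  rw [mem_Ico] at ht ⊢
  omega

theorem arcE_split (hT : T.Sphere) {X : Finset F} {l : ℕ} {c : ℤ → V} (h : T.Enum X l c)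
    {i j k : ℤ} (hij : i ≤ j) (hjk : j ≤ k) (hkl : k ≤ i + l) :
    arcE c i k = arcE c i j ∆ arcE c j k := by
  have h1 := ((pEnumFacts V F T hT X l c h).2.2.2.2.2.1 i j hij (hjk.trans hkl)).2.2.2
  have h2 : Disjoint (arcE c i j) (arcE c j k) :=
    disjoint_of_subset_right (arcE_mono c hkl) h1
  rw [← arcE_union c hij hjk]
  exact h2.symmDiff_eq_sup.symm

theorem pf_StmtFill (hPos : StmtPos) (hBead : StmtBead) (hMass : StmtMass) : StmtFill := by
  intro V F _ _ T hT L e l lam Xa T₁ P S x y z hA hTr hd hdl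
  have hPT : P ⊆ T₁ := hTr.PS.trans hTr.ST
  have hXS : Xa ⊆ S := hTr.XP.trans hTr.PS
  obtain ⟨cP0, hP0⟩ := hA.iso P hTr.XP hPT hTr.lenP
  obtain ⟨cS0, hS0⟩ := hA.iso S hXS hTr.ST hTr.lenS
  obtain ⟨c, p, q, hp⟩ := hPos V F T hT P l cP0 x y z hP0 hTr.hx.2.1 hTr.hy.2.1 hTr.hz.2.1
    hTr.xy hTr.yz hTr.xz
  obtain ⟨c', p', q', hp'⟩ := hPos V F T hT S l cS0 x y z hS0 hTr.hx.2.2 hTr.hy.2.2 hTr.hz.2.2
    hTr.xy hTr.yz hTr.xz
  obtain ⟨iP, cx, cy, cz, p0, pq, ql, dxy, dyz, dxz⟩ := hp
  obtain ⟨iS, cx', cy', cz', p0', pq', ql', dxy', dyz', dxz'⟩ := hp'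
  have hq : q = T.G.dist x z := by omega
  have hpp : p = T.G.dist x y := by omega
  have hq' : q' = q := by omega
  have hpp' : p' = p := by omega
  rw [← hq]
  rw [← hq] at hd hdl
  rw [hq'] at cz' pq' ql'
  rw [hpp'] at cy' p0' pq'
  -- connectedness
  have hDC := hA.bondT.2
  have hSD : Disjoint S T₁ᶜ := by
    rw [disjoint_left]
    intro f hf hf'
    rw [mem_compl] at hf'
    exact hf' (hTr.ST hf)
  have hcompl := (pAlg V F T).2.1
  have hadd := (pAlg V F T).1
  obtain ⟨Z1, bZ1, dZ1⟩ := exists_between T hT iP.1 iS.1 hTr.PS hDC hSD (i := 0) (j := p)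
    (by omega) (by omega) (by rw [cx, cx']) (by rw [cy, cy'])
  obtain ⟨Z2, bZ2, dZ2⟩ := exists_between T hT iP.1 iS.1 hTr.PS hDC hSD (i := p) (j := q)
    (by omega) (by omega) (by rw [cy, cy']) (by rw [cz, cz'])
  have hl : ∀ u ∈ L, Bad T.G e u := hA.bad
  -- the beads are light
  have m1 : (T.Vin Z1).card < e := by
    refine hBead V F T hT P S Z1 T₁ᶜ l p c c' q q z e iP iS hTr.PS hDC.1 hSD dZ1 (by omega)
      (by omega) (by rw [cx, cx']) (by rw [cy, cy']) (by omega) (by omega) (by omega) (by omega)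
      cz.symm cz'.symm (hl z hTr.hz.1) bZ1
  have hper : ∀ (X : Finset F) (d : ℤ → V), T.Enum X l d → ∀ s : ℤ, d ((l : ℤ) - s + s) = d 0 := by
    intro X d hd s
    have := hd.per 0
    rw [zero_add] at this
    rw [sub_add_cancel, this]
  have m2 : (T.Vin Z2).card < e := by
    refine hBead V F T hT P S Z2 T₁ᶜ l (q - p) (fun t => c (t + p)) (fun t => c' (t + p))
      ((l : ℤ) - p) ((l : ℤ) - p) x e (iso_shift T hT iP p) (iso_shift T hT iS p) hTr.PS
      hDC.1 hSD dZ2 (by omega) (by omega) ?_ ?_ ?_ (by omega) ?_ (by omega) ?_ ?_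
      (hl x hTr.hx.1) ?_
    · show c' (0 + p) = c (0 + p)
      rw [zero_add, cy, cy']
    · show c' (((q - p : ℕ) : ℤ) + p) = c (((q - p : ℕ) : ℤ) + p)
      rw [Nat.cast_sub pq.le, sub_add_cancel, cz, cz']
    · rw [Nat.cast_sub pq.le]; omega
    · rw [Nat.cast_sub pq.le]; omega
    · show x = c ((l : ℤ) - p + p)
      rw [hper P c iP.1, cx]
    · show x = c' ((l : ℤ) - p + p)
      rw [hper S c' iS.1, cx']
    · rw [arcE_shift, arcE_shift, bZ2, zero_add, Nat.cast_sub pq.le, sub_add_cancel]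
  -- the bead
  set Z := Z1 ∆ Z2 with hZ
  have bZ : T.bdry Z = arcE c' 0 q ∆ arcE c 0 q := by
    rw [hZ, hadd, bZ1, bZ2, arcE_split T hT iP.1 (i := 0) (j := p) (k := q) (by omega) (by omega)
      (by omega), arcE_split T hT iS.1 (i := 0) (j := p) (k := q) (by omega) (by omega)
      (by omega)]
    rw [symmDiff_symmDiff_symmDiff_comm]
  have dZ : Disjoint Z T₁ᶜ := by
    rw [disjoint_left] at dZ1 dZ2 ⊢
    intro f hf
    rw [hZ, mem_symmDiff] at hf
    rcases hf with hf | hf
    · exact dZ1 hf.1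
    · exact dZ2 hf.1
  have ZT : Z ⊆ T₁ := by
    intro f hf
    by_contra h
    exact disjoint_left.1 dZ hf (mem_compl.2 h)
  obtain ⟨bondP, -, cardVP, -, -, fP1, -⟩ := pEnumFacts V F T hT P l c iP.1
  obtain ⟨bondS, -, -, -, -, fS1, -⟩ := pEnumFacts V F T hT S l c' iS.1
  have aP := fP1 0 q (by omega) (by omega)
  have aS := fS1 0 q (by omega) (by omega)
  have cP : (arcE c 0 q).card = q := by rw [aP.1]; omega
  have cS : (arcE c' 0 q).card = q := by rw [aS.1]; omega
  have hbZ : ∀ e ∈ T.bdry Z, e ∈ T.bdry S ∨ e ∈ T.bdry P := by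
    intro e he
    rw [bZ, mem_symmDiff] at he
    rcases he with he | he
    · exact Or.inl (aS.2.1 he.1)
    · exact Or.inr (aP.2.1 he.1)
  have lenZ : T.len Z ≤ 2 * q := by
    rw [Tri.len, bZ]
    have := card_symmDiff_add (arcE c' 0 q) (arcE c 0 q)
    omega
  have hPZ : Disjoint P Z := by
    rcases pNoCut V F T P Z bondP.1 (by
      intro e he
      rcases hbZ e he with h | h
      · exact not_inn T hTr.PS h
      · exact not_inn T (subset_refl _) h) with h | h
    · exfalso
      have := hA.sep Z (hTr.XP.trans h) ZT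
      omega
    · exact h
  have hSZ : Z ⊆ S := by
    rcases pNoCut V F T Sᶜ Z bondS.2 (by
      intro e he
      rcases hbZ e he with h | h
      · apply not_inn T (subset_refl _)
        rw [hcompl]
        exact h
      · apply not_inn T (compl_subset_compl.2 hTr.PS)
        rw [hcompl]
        exact h) with h | h
    · exfalso
      obtain ⟨f, hf⟩ := hDC.1
      have h1 : f ∈ Sᶜ := compl_subset_compl.2 hTr.ST hf
      exact disjoint_left.1 dZ (h h1) hf
    · intro f hf
      by_contra h'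
      exact disjoint_left.1 h (mem_compl.2 h') hf
  set A := P ∪ Z with hAdef
  have hXA : Xa ⊆ A := hTr.XP.trans subset_union_left
  have hAS : A ⊆ S := union_subset hTr.PS hSZ
  have bA : T.bdry A = (T.bdry P \ arcE c 0 q) ∆ arcE c' 0 q := by
    have h1 : A = P ∆ Z := by
      rw [hAdef]
      exact hPZ.symmDiff_eq_sup.symm
    rw [h1, hadd, bZ]
    have h2 : T.bdry P \ arcE c 0 q = T.bdry P ∆ arcE c 0 q := by
      ext e
      simp only [mem_sdiff, mem_symmDiff]
      constructor
      · intro h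
        exact Or.inl h
      · rintro (h | h)
        · exact h
        · exact absurd (aP.2.1 h.1) h.2
    rw [h2, symmDiff_comm (arcE c' 0 q), symmDiff_assoc]
  have c1 : (T.bdry P \ arcE c 0 q).card = l - q := by
    rw [card_sdiff_of_subset aP.2.1, cP]
    have := hTr.lenP
    rw [Tri.len] at this
    rw [this]
  have hlA := hA.sep A hXA (hAS.trans hTr.ST)
  have hsum := card_symmDiff_add (T.bdry P \ arcE c 0 q) (arcE c' 0 q)
  rw [← bA, c1, cS] at hsum
  have hlenA : T.len A = (T.bdry A).card := rfl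
  have hlA' : T.len A = l := by omega
  have hint : ((T.bdry P \ arcE c 0 q) ∩ arcE c' 0 q).card = 0 := by omega
  have hsub : arcE c' 0 q ⊆ T.bdry A := by
    intro e he
    rw [bA, mem_symmDiff]
    right
    refine ⟨he, fun h => ?_⟩
    rw [card_eq_zero] at hint
    have : e ∈ (T.bdry P \ arcE c 0 q) ∩ arcE c' 0 q := mem_inter.2 ⟨h, he⟩
    rw [hint] at this
    simp at this
  -- the mass
  have hmass : T.m L (A \ Xa) ≤ 3 * lam + 6 * l + 2 * e := by
    have hincl : L ∩ T.Vin (A \ Xa) ⊆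
        (L ∩ T.Vin (P \ Xa)) ∪ T.Vbd P ∪ (T.Vin Z1 ∪ T.Vbd Z1 ∪ T.Vin Z2) := by
      intro v hv
      rw [mem_inter] at hv
      obtain ⟨hvL, hvA⟩ := hv
      rw [Tri.Vin, mem_filter] at hvA
      have hvA := hvA.2
      rcases (pTri V F T hT).1 P v with h | h | h
      · rw [Tri.Vin, mem_filter] at h
        refine mem_union_left _ (mem_union_left _ (mem_inter.2 ⟨hvL, ?_⟩))
        rw [Tri.Vin, mem_filter]
        refine ⟨mem_univ _, fun f hf => mem_sdiff.2 ⟨h.2 f hf, (mem_sdiff.1 (hvA f hf)).2⟩⟩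
      · exact mem_union_left _ (mem_union_right _ h)
      · rw [Tri.Vin, mem_filter] at h
        apply mem_union_right
        have hvZ : ∀ f, v ∈ T.tri f → f ∈ Z := by
          intro f hf
          have h1 := (mem_sdiff.1 (hvA f hf)).1
          rw [hAdef, mem_union] at h1
          exact h1.resolve_left (mem_compl.1 (h.2 f hf))
        rcases (pTri V F T hT).1 Z1 v with h' | h' | h'
        · exact mem_union_left _ (mem_union_left _ h')
        · exact mem_union_left _ (mem_union_right _ h')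
        · apply mem_union_right
          rw [Tri.Vin, mem_filter] at h' ⊢
          refine ⟨mem_univ _, fun f hf => ?_⟩
          have h1 := hvZ f hf
          rw [hZ, mem_symmDiff] at h1
          rcases h1 with h1 | h1
          · exact absurd h1.1 (mem_compl.1 (h'.2 f hf))
          · exact h1.1
    have hV1 : (T.Vbd Z1).card ≤ 2 * p := by
      refine ((hMass V F T hT).1 Z1).trans ?_
      rw [Tri.len, bZ1]
      have := card_symmDiff_add (arcE c' 0 p) (arcE c 0 p)
      have e1 := (fP1 0 p (by omega) (by omega)).1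
      have e2 := (fS1 0 p (by omega) (by omega)).1
      omega
    have hc := card_le_card hincl
    have u1 := card_union_le ((L ∩ T.Vin (P \ Xa)) ∪ T.Vbd P) (T.Vin Z1 ∪ T.Vbd Z1 ∪ T.Vin Z2)
    have u2 := card_union_le (L ∩ T.Vin (P \ Xa)) (T.Vbd P)
    have u3 := card_union_le (T.Vin Z1 ∪ T.Vbd Z1) (T.Vin Z2)
    have u4 := card_union_le (T.Vin Z1) (T.Vbd Z1)
    have hmP := hTr.massP
    rw [Tri.m] at hmP ⊢
    omega
  exact ⟨A, c', hXA, hAS, hlA', hmass, iS, cx', cz', hsub⟩

end Pool.Agent.Helper23.FF
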